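import Mathlib

/-!
# The bounded derived category of a monoidal abelian category and its tensor product
-/

set_option autoImplicit false

open CategoryTheory CategoryTheory.Limits MonoidalCategory

universe w v u

namespace Pool.Agent.U692.TV

/-- A complex is bounded: it vanishes outside of a finite interval of degrees. -/
def Bdd {C : Type u} [Category.{v} C] [HasZeroMorphisms C] (K : CochainComplex C ℤ) : Prop :=
  ∃ a b : ℤ, K.IsStrictlyGE a ∧ K.IsStrictlyLE b

theorem Bdd.isZero {C : Type u} [Category.{v} C] [HasZeroMorphisms C] {K : CochainComplex C ℤ}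
    (h : Bdd K) : ∃ s : Finset ℤ, ∀ i, i ∉ s → IsZero (K.X i) := by
  obtain ⟨a, b, ha, hb⟩ := h
  refine ⟨Finset.Icc a b, fun i hi => ?_⟩
  rw [Finset.mem_Icc] at hi
  by_cases h1 : a ≤ i
  · have h2 : b < i := by
      by_contra h2
      exact hi ⟨h1, not_lt.1 h2⟩
    exact K.isZero_of_isStrictlyLE b i h2
  · exact K.isZero_of_isStrictlyGE a i (not_le.1 h1)

theorem bdd_of {C : Type u} [Category.{v} C] [HasZeroMorphisms C] {K : CochainComplex C ℤ}
    (s : Finset ℤ) (h : ∀ i, i ∉ s → IsZero (K.X i)) : Bdd K := by
  by_cases hs : s.Nonempty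
  · refine ⟨s.min' hs, s.max' hs, ?_, ?_⟩
    · rw [CochainComplex.isStrictlyGE_iff]
      intro i hi
      exact h i fun h' => absurd (s.min'_le i h') (not_le.2 hi)
    · rw [CochainComplex.isStrictlyLE_iff]
      intro i hi
      exact h i fun h' => absurd (s.le_max' i h') (not_le.2 hi)
  · rw [Finset.not_nonempty_iff_eq_empty] at hs
    subst hs
    refine ⟨0, 0, ?_, ?_⟩
    · rw [CochainComplex.isStrictlyGE_iff]
      intro i _
      exact h i (by simp)
    · rw [CochainComplex.isStrictlyLE_iff]
      intro i _
      exact h i (by simp)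

/-- a family of objects which vanishes outside of a finite set has a coproduct -/
theorem hasCoproduct_of_finite {C : Type u} [Category.{v} C] [Preadditive C]
    [HasFiniteCoproducts C] {J : Type} (X : J → C) (s : Finset J)
    (h : ∀ j, j ∉ s → IsZero (X j)) : HasCoproduct X := by
  classical
  let Y : s → C := fun j => X j.1
  let c : Cofan X := Cofan.mk (∐ Y) (fun j => if hj : j ∈ s then Limits.Sigma.ι Y ⟨j, hj⟩ else 0)
  refine ⟨⟨c, ?_⟩⟩
  refine Cofan.IsColimit.mk c (fun t => Limits.Sigma.desc (f := Y) (fun j => t.inj j.1)) ?_ ?_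
  · intro t j
    by_cases hj : j ∈ s
    · simp [c, hj, Y]
    · exact (h j hj).eq_of_src _ _
  · intro t m hm
    refine Limits.Sigma.hom_ext (f := Y) _ _ (fun j => ?_)
    have := hm j.1
    simp only [c, cofan_mk_inj, j.2, dif_pos] at this
    simpa using this

section tensor

variable {C : Type u} [Category.{v} C] [Abelian C] [MonoidalCategory C] [MonoidalPreadditive C]

theorem isZero_tensor_left {X : C} (h : IsZero X) (Y : C) : IsZero (X ⊗ Y) :=
  (tensorRight Y).map_isZero h

theorem isZero_tensor_right {Y : C} (X : C) (h : IsZero Y) : IsZero (X ⊗ Y) :=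
  (tensorLeft X).map_isZero h

/-- the tensor product of two bounded complexes exists -/
theorem hasTensor {K L : CochainComplex C ℤ} (hK : Bdd K) (hL : Bdd L) :
    HomologicalComplex.HasTensor K L := by
  classical
  obtain ⟨s, hs⟩ := hK.isZero
  obtain ⟨t, ht⟩ := hL.isZero
  intro j
  refine hasCoproduct_of_finite _
    ((s ×ˢ t).preimage (fun i => (i.1 : ℤ × ℤ)) (Set.injOn_of_injective Subtype.val_injective)) ?_
  rintro ⟨⟨i₁, i₂⟩, hi⟩ h
  rw [Finset.mem_preimage, Finset.mem_product] at h
  by_cases h1 : i₁ ∈ s
  · exact isZero_tensor_right _ (ht i₂ fun h2 => h ⟨h1, h2⟩)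
  · exact isZero_tensor_left (hs i₁ h1) _

/-- The tensor product of two bounded complexes. -/
noncomputable def tens (K L : CochainComplex C ℤ) (hK : Bdd K) (hL : Bdd L) :
    CochainComplex C ℤ :=
  haveI := hasTensor hK hL
  HomologicalComplex.tensorObj K L

/-- The tensor product of two morphisms of bounded complexes. -/
noncomputable def tensMap {K K' L L' : CochainComplex C ℤ} (hK : Bdd K) (hL : Bdd L)
    (hK' : Bdd K') (hL' : Bdd L') (φ : K ⟶ K') (ψ : L ⟶ L') :
    tens K L hK hL ⟶ tens K' L' hK' hL' :=
  haveI := hasTensor hK hL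
  haveI := hasTensor hK' hL'
  HomologicalComplex.tensorHom φ ψ

theorem bdd_tens {K L : CochainComplex C ℤ} (hK : Bdd K) (hL : Bdd L) :
    Bdd (tens K L hK hL) := by
  classical
  haveI := hasTensor hK hL
  obtain ⟨s, hs⟩ := hK.isZero
  obtain ⟨t, ht⟩ := hL.isZero
  refine bdd_of ((s ×ˢ t).image fun p => p.1 + p.2) ?_
  intro j hj
  rw [IsZero.iff_id_eq_zero]
  refine HomologicalComplex.mapBifunctor.hom_ext (K₁ := K) (K₂ := L) (F := curriedTensor C)
    (c := ComplexShape.up ℤ) ?_
  intro i₁ i₂ h
  by_cases h1 : i₁ ∈ s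
  · by_cases h2 : i₂ ∈ t
    · exact absurd (Finset.mem_image.2 ⟨(i₁, i₂), Finset.mem_product.2 ⟨h1, h2⟩, h⟩) hj
    · exact (isZero_tensor_right _ (ht i₂ h2)).eq_of_src _ _
  · exact (isZero_tensor_left (hs i₁ h1) _).eq_of_src _ _

end tensor

section derived

variable (C : Type u) [Category.{v} C] [Abelian C] [HasDerivedCategory.{w} C]

/-- The bounded derived category: the full subcategory of the bounded objects of the derived
category. -/
abbrev Db := (DerivedCategory.TStructure.t (C := C)).bounded.FullSubcategory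

variable {C}

theorem bounded_Q {K : CochainComplex C ℤ} (hK : Bdd K) :
    (DerivedCategory.TStructure.t (C := C)).bounded (DerivedCategory.Q.obj K) := by
  obtain ⟨a, b, ha, hb⟩ := hK
  exact ⟨⟨a, ⟨K, Iso.refl _, ha⟩⟩, ⟨b, ⟨K, Iso.refl _, hb⟩⟩⟩

/-- The object of the bounded derived category given by a bounded complex. -/
noncomputable def QB (K : CochainComplex C ℤ) (hK : Bdd K) : Db C :=
  ⟨DerivedCategory.Q.obj K, bounded_Q hK⟩

/-- The morphism of the bounded derived category given by a morphism of bounded complexes. -/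
noncomputable def QBmap {K L : CochainComplex C ℤ} (hK : Bdd K) (hL : Bdd L) (φ : K ⟶ L) :
    QB K hK ⟶ QB L hL :=
  ObjectProperty.homMk (DerivedCategory.Q.map φ)

end derived

section product

variable (C : Type u) [Category.{v} C] [Abelian C] [MonoidalCategory C] [MonoidalPreadditive C]
  [HasDerivedCategory.{w} C]

/-- The tensor product of the bounded derived category: a bifunctor which is computed on bounded
complexes by the tensor product of complexes. -/
structure DTensor where
  /-- the bifunctor -/
  T : Db C ⥤ Db C ⥤ Db C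
  /-- on bounded complexes it is the tensor product of complexes -/
  iso (K L : CochainComplex C ℤ) (hK : Bdd K) (hL : Bdd L) :
    (T.obj (QB K hK)).obj (QB L hL) ≅ QB (tens K L hK hL) (bdd_tens hK hL)
  /-- the isomorphisms are natural -/
  natural {K K' L L' : CochainComplex C ℤ} (hK : Bdd K) (hL : Bdd L) (hK' : Bdd K') (hL' : Bdd L')
    (φ : K ⟶ K') (ψ : L ⟶ L') :
    (T.map (QBmap hK hK' φ)).app (QB L hL) ≫ (T.obj (QB K' hK')).map (QBmap hL hL' ψ) ≫
        (iso K' L' hK' hL').hom =
      (iso K L hK hL).hom ≫
        QBmap (bdd_tens hK hL) (bdd_tens hK' hL') (tensMap hK hL hK' hL' φ ψ)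

variable {C}

omit [MonoidalCategory C] [MonoidalPreadditive C] [HasDerivedCategory.{w} C] in
theorem bdd_single (X : C) :
    Bdd ((HomologicalComplex.single C (ComplexShape.up ℤ) 0).obj X) :=
  bdd_of {0} fun i hi => HomologicalComplex.isZero_single_obj_X _ _ _ _ (by simpa using hi)

/-- The object of the bounded derived category given by an object of `C`, placed in degree zero. -/
noncomputable def obj (X : C) : Db C :=
  QB ((HomologicalComplex.single C (ComplexShape.up ℤ) 0).obj X) (bdd_single X)

variable (C) in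
/-- The unit of the bounded derived category. -/
noncomputable def one : Db C := obj (𝟙_ C)

namespace DTensor

variable (D : DTensor C)

/-- the tensor product of two morphisms of the bounded derived category -/
noncomputable def hom {X X' Y Y' : Db C} (f : X ⟶ X') (g : Y ⟶ Y') :
    (D.T.obj X).obj Y ⟶ (D.T.obj X').obj Y' :=
  (D.T.map f).app Y ≫ (D.T.obj X').map g

end DTensor

end product

end Pool.Agent.U692.TV
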