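import Pool.Agent.U692.TV.Defs

set_option autoImplicit false

open CategoryTheory CategoryTheory.Limits MonoidalCategory

universe w v u

namespace Pool.Agent.U692.TV

section formal

variable {C : Type u} [Category.{v} C] [Abelian C] [MonoidalCategory C] [MonoidalPreadditive C]
  [HasDerivedCategory.{w} C] (D : DTensor C)

theorem hom_comp {X X' X'' Y Y' Y'' : Db C} (f : X ⟶ X') (f' : X' ⟶ X'') (g : Y ⟶ Y')
    (g' : Y' ⟶ Y'') : D.hom (f ≫ f') (g ≫ g') = D.hom f g ≫ D.hom f' g' := by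
  simp [DTensor.hom]

theorem hom_zero_left {X X' Y Y' : Db C} (f : X ⟶ X') (g : Y ⟶ Y') (e : X ⟶ X')
    (h : D.hom e (𝟙 Y) = 0) (hf : f = e) : D.hom f g = 0 := by
  subst hf
  have := hom_comp D f (𝟙 X') (𝟙 Y) g
  rw [Category.comp_id, Category.id_comp] at this
  rw [this, h, zero_comp]

theorem hom_Q {K K' L L' : CochainComplex C ℤ} (hK : Bdd K) (hL : Bdd L) (hK' : Bdd K')
    (hL' : Bdd L') (φ : K ⟶ K') (ψ : L ⟶ L') :
    D.hom (QBmap hK hK' φ) (QBmap hL hL' ψ) =
      (D.iso K L hK hL).hom ≫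
        QBmap (bdd_tens hK hL) (bdd_tens hK' hL') (tensMap hK hL hK' hL' φ ψ) ≫
        (D.iso K' L' hK' hL').inv := by
  rw [← Category.assoc, ← D.natural, DTensor.hom]
  simp

/-- every morphism from a bounded complex is, up to an isomorphism of its target, given by a
morphism of bounded complexes -/
theorem rep {K : CochainComplex C ℤ} (hK : Bdd K) {X : Db C} (f : QB K hK ⟶ X) :
    ∃ (L : CochainComplex C ℤ) (hL : Bdd L) (φ : K ⟶ L) (e : X ≅ QB L hL),
      f ≫ e.hom = QBmap hK hL φ := by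
  obtain ⟨⟨a, hXa⟩, ⟨b, hXb⟩⟩ := X.property
  have := hXa
  have := hXb
  obtain ⟨L, hLa, hLb, ⟨i⟩⟩ := DerivedCategory.exists_iso_Q_obj_of_isGE_of_isLE X.obj a b
  obtain ⟨a', b', _, hKb⟩ := id hK
  have := hKb
  have : K.IsStrictlyLE (max b b') := K.isStrictlyLE_of_le b' _ (le_max_right _ _)
  have : L.IsStrictlyLE (max b b') := L.isStrictlyLE_of_le b _ (le_max_left _ _)
  let f' : DerivedCategory.Q.obj K ⟶ DerivedCategory.Q.obj L := f.hom ≫ i.hom
  obtain ⟨L', hGE, hLE, g, s, hs, fac⟩ :=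
    DerivedCategory.left_fac_of_isStrictlyLE_of_isStrictlyGE a (max b b') f'
  have hL' : Bdd L' := ⟨_, _, hGE, hLE⟩
  have := hs
  let e : X.obj ≅ (QB L' hL').obj := i ≪≫ @asIso _ _ _ _ _ hs
  refine ⟨L', hL', g, ObjectProperty.isoMk _ e, ?_⟩
  ext
  simp only [QBmap, ObjectProperty.isoMk, ObjectProperty.FullSubcategory.comp_hom,
    ObjectProperty.homMk_hom]
  have h1 : f' ≫ DerivedCategory.Q.map s = DerivedCategory.Q.map g := by
    rw [fac, Category.assoc, IsIso.inv_hom_id, Category.comp_id]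
  rw [← h1]
  exact (Category.assoc _ _ _).symm

end formal

section key

variable {C : Type u} [Category.{v} C] [Abelian C] [MonoidalCategory C] [MonoidalPreadditive C]

/-- the complex with the unit in degree zero -/
noncomputable abbrev sg (X : C) : CochainComplex C ℤ :=
  (HomologicalComplex.single C (ComplexShape.up ℤ) 0).obj X

/-- the projection to the cokernel of the differential, in degree zero -/
noncomputable def q (K : CochainComplex C ℤ) (i : ℤ) : K.X i ⟶ K.opcycles 0 :=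
  if h : i = 0 then (K.XIsoOfEq h).hom ≫ K.pOpcycles 0 else 0

theorem q_zero (K : CochainComplex C ℤ) : q K 0 = K.pOpcycles 0 := by
  simp [q]

theorem d_q (K : CochainComplex C ℤ) (i j : ℤ) : K.d i j ≫ q K j = 0 := by
  by_cases h : j = 0
  · subst h
    rw [q_zero, HomologicalComplex.d_pOpcycles]
  · simp [q, h]

/-- a chain map with image zero in homology, from a complex without differential -/
theorem f_p_eq_zero [HasDerivedCategory.{w} C] {S M : CochainComplex C ℤ} (χ : S ⟶ M)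
    (hS : S.d 0 1 = 0) (h : DerivedCategory.Q.map χ = 0) : χ.f 0 ≫ M.pOpcycles 0 = 0 := by
  have h1 : (HomologicalComplex.homologyFunctor C (ComplexShape.up ℤ) 0).map χ = 0 := by
    have := (DerivedCategory.homologyFunctorFactors C 0).hom.naturality χ
    rw [Functor.comp_map, h, Functor.map_zero, zero_comp] at this
    rw [← Iso.cancel_iso_hom_left ((DerivedCategory.homologyFunctorFactors C 0).app S), comp_zero]
    exact this.symm
  have h2 : IsIso (S.homologyι 0) := S.isIso_homologyι 0 1 (by simp) hS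
  have h3 : HomologicalComplex.opcyclesMap χ 0 = 0 := by
    rw [← cancel_epi (S.homologyι 0), ← HomologicalComplex.homologyι_naturality, comp_zero]
    exact (congrArg (fun t => t ≫ M.homologyι 0) h1).trans zero_comp
  rw [← HomologicalComplex.p_opcyclesMap, h3, comp_zero]

section api

variable {K L K' L' : CochainComplex C ℤ} (hK : Bdd K) (hL : Bdd L) (hK' : Bdd K') (hL' : Bdd L')

/-- the inclusion of a summand of the tensor product -/
noncomputable def ιt (i j n : ℤ) (h : i + j = n) : K.X i ⊗ L.X j ⟶ (tens K L hK hL).X n :=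
  haveI := hasTensor hK hL
  HomologicalComplex.ιMapBifunctor K L (curriedTensor C) (ComplexShape.up ℤ) i j n h

variable {hK hL} in
theorem tens_ext {A : C} {n : ℤ} {f g : (tens K L hK hL).X n ⟶ A}
    (h : ∀ (i j : ℤ) (h : i + j = n), ιt hK hL i j n h ≫ f = ιt hK hL i j n h ≫ g) : f = g :=
  have := hasTensor hK hL
  HomologicalComplex.mapBifunctor.hom_ext (K₁ := K) (K₂ := L)
    (F := curriedTensor C) (c := ComplexShape.up ℤ) h

/-- a morphism from the tensor product -/
noncomputable def desct {A : C} {n : ℤ} (f : ∀ (i j : ℤ), i + j = n → (K.X i ⊗ L.X j ⟶ A)) :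
    (tens K L hK hL).X n ⟶ A :=
  haveI := hasTensor hK hL
  HomologicalComplex.mapBifunctorDesc (K₁ := K) (K₂ := L) (F := curriedTensor C)
    (c := ComplexShape.up ℤ) f

theorem ι_desct {A : C} {n : ℤ} (f : ∀ (i j : ℤ), i + j = n → (K.X i ⊗ L.X j ⟶ A)) (i j : ℤ)
    (h : i + j = n) : ιt hK hL i j n h ≫ desct hK hL f = f i j h :=
  have := hasTensor hK hL
  HomologicalComplex.ι_mapBifunctorDesc (K₁ := K) (K₂ := L) (F := curriedTensor C)
    (c := ComplexShape.up ℤ) f i j h

theorem ι_d (i j n n' i' j' : ℤ) (h : i + j = n) (h' : n + 1 = n') (hi : i + 1 = i')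
    (hj : j + 1 = j') :
    ιt hK hL i j n h ≫ (tens K L hK hL).d n n' =
      ComplexShape.ε₁ (ComplexShape.up ℤ) (ComplexShape.up ℤ) (ComplexShape.up ℤ) (i, j) •
        (K.d i i' ▷ L.X j ≫ ιt hK hL i' j n' (by omega)) +
      ComplexShape.ε₂ (ComplexShape.up ℤ) (ComplexShape.up ℤ) (ComplexShape.up ℤ) (i, j) •
        (K.X i ◁ L.d j j' ≫ ιt hK hL i j' n' (by omega)) := by
  have := hasTensor hK hL
  subst hi
  subst hj
  change HomologicalComplex.ιMapBifunctor K L (curriedTensor C) (ComplexShape.up ℤ) i j n h ≫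
    (HomologicalComplex.mapBifunctor K L (curriedTensor C) (ComplexShape.up ℤ)).d n n' = _
  rw [HomologicalComplex.mapBifunctor.d_eq, Preadditive.comp_add,
    HomologicalComplex.mapBifunctor.ι_D₁, HomologicalComplex.mapBifunctor.ι_D₂,
    HomologicalComplex.mapBifunctor.d₁_eq _ _ _ _ (show (ComplexShape.up ℤ).Rel i (i + 1) by simp)
      _ _ (show (i + 1) + j = n' by omega),
    HomologicalComplex.mapBifunctor.d₂_eq _ _ _ _ _ (show (ComplexShape.up ℤ).Rel j (j + 1) by simp)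
      _ (show i + (j + 1) = n' by omega)]
  rfl

theorem ι_map (φ : K ⟶ K') (ψ : L ⟶ L') (i j n : ℤ) (h : i + j = n) :
    ιt hK hL i j n h ≫ (tensMap hK hL hK' hL' φ ψ).f n =
      (φ.f i ⊗ₘ ψ.f j) ≫ ιt hK' hL' i j n h := by
  have := hasTensor hK hL
  have := hasTensor hK' hL'
  rw [MonoidalCategory.tensorHom_def, Category.assoc]
  exact HomologicalComplex.ι_mapBifunctorMap φ ψ (curriedTensor C) (ComplexShape.up ℤ) i j n h

end api

theorem d_single (X Y : C) (i j : ℤ) :
    (tens (sg X) (sg Y) (bdd_single X) (bdd_single Y)).d i j = 0 := by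
  by_cases h : i + 1 = j
  · refine tens_ext fun i₁ i₂ h₁ => ?_
    rw [ι_d _ _ _ _ _ _ _ _ h₁ h rfl rfl]
    simp
  · exact HomologicalComplex.shape _ _ _ h

/-- the map of the tensor product to the tensor product of the cokernels, in degree zero -/
noncomputable def rho {K L : CochainComplex C ℤ} (hK : Bdd K) (hL : Bdd L) :
    (tens K L hK hL).X 0 ⟶ K.opcycles 0 ⊗ L.opcycles 0 :=
  desct hK hL (fun i j _ => q K i ⊗ₘ q L j)

theorem d_rho {K L : CochainComplex C ℤ} (hK : Bdd K) (hL : Bdd L) :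
    (tens K L hK hL).d (-1) 0 ≫ rho hK hL = 0 := by
  refine tens_ext fun i j h => ?_
  rw [← Category.assoc, ι_d _ _ _ _ _ _ _ _ h (by omega) rfl rfl, Preadditive.add_comp, Linear.units_smul_comp,
    Linear.units_smul_comp, Category.assoc, Category.assoc, rho, ι_desct, ι_desct, ← tensorHom_id,
    ← id_tensorHom, tensorHom_comp_tensorHom, tensorHom_comp_tensorHom, d_q, d_q,
    MonoidalPreadditive.zero_tensor, MonoidalPreadditive.tensor_zero]
  simp

theorem key1 [HasDerivedCategory.{w} C] {K L : CochainComplex C ℤ} (hK : Bdd K) (hL : Bdd L)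
    (X Y : C) (φ : sg X ⟶ K) (ψ : sg Y ⟶ L)
    (h : DerivedCategory.Q.map (tensMap (bdd_single X) (bdd_single Y) hK hL φ ψ) = 0) :
    (φ.f 0 ≫ K.pOpcycles 0) ⊗ₘ (ψ.f 0 ≫ L.pOpcycles 0) = 0 := by
  have h2 := f_p_eq_zero _ (d_single X Y 0 1) h
  have h3 : (tensMap (bdd_single X) (bdd_single Y) hK hL φ ψ).f 0 ≫ rho hK hL = 0 := by
    rw [← (tens K L hK hL).p_descOpcycles (rho hK hL) (-1) (by simp) (d_rho hK hL),
      ← Category.assoc, h2, zero_comp]
  have h4 : ιt (bdd_single X) (bdd_single Y) 0 0 0 (by omega) ≫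
      (tensMap (bdd_single X) (bdd_single Y) hK hL φ ψ).f 0 ≫ rho hK hL = 0 := by
    rw [h3, comp_zero]
  rw [← Category.assoc, ι_map, Category.assoc, rho, ι_desct, q_zero, q_zero,
    tensorHom_comp_tensorHom] at h4
  exact h4

/-- a chain map from a projective object in degree zero which vanishes in the cokernel of the
differential vanishes in the derived category -/
theorem Q_eq_zero [HasDerivedCategory.{w} C] {S M : CochainComplex C ℤ} (χ : S ⟶ M)
    (hS : ∀ i, i ≠ 0 → IsZero (S.X i)) [Projective (S.X 0)]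
    (h : χ.f 0 ≫ M.pOpcycles 0 = 0) : DerivedCategory.Q.map χ = 0 := by
  let T : ShortComplex C := ShortComplex.mk (M.d (-1) 0) (M.pOpcycles 0) (M.d_pOpcycles _ _)
  have hT : T.Exact := ShortComplex.exact_of_g_is_cokernel _ (M.opcyclesIsCokernel (-1) 0 (by simp))
  let s : S.X 0 ⟶ M.X (-1) := hT.liftFromProjective (χ.f 0) h
  have hs : s ≫ M.d (-1) 0 = χ.f 0 := hT.liftFromProjective_comp (χ.f 0) h
  let H : Homotopy χ 0 :=
    { hom := fun i j => if h : i = 0 ∧ j = -1 then
        (S.XIsoOfEq h.1).hom ≫ s ≫ (M.XIsoOfEq h.2.symm).hom else 0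
      zero := by
        intro i j hij
        rw [dif_neg]
        rintro ⟨rfl, rfl⟩
        exact hij (by simp)
      comm := by
        intro i
        by_cases hi : i = 0
        · subst hi
          rw [dNext_eq _ (show (ComplexShape.up ℤ).Rel 0 1 by simp),
            prevD_eq _ (show (ComplexShape.up ℤ).Rel (-1) 0 by simp)]
          simp [hs]
        · exact (hS i hi).eq_of_src _ _ }
  rw [DerivedCategory.Q_map_eq_of_homotopy C H, Functor.map_zero]

end key

section rigid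

variable {C : Type u} [Category.{v} C] [Abelian C] [MonoidalCategory C] [MonoidalPreadditive C]
  [RigidCategory C]

instance leftAdj_tensorLeft (X : C) : (tensorLeft X).IsLeftAdjoint :=
  (tensorLeftAdjunction (ᘁX) X).isLeftAdjoint

instance rightAdj_tensorLeft (X : C) : (tensorLeft X).IsRightAdjoint :=
  (tensorLeftAdjunction X (Xᘁ)).isRightAdjoint

instance leftAdj_tensorRight (X : C) : (tensorRight X).IsLeftAdjoint :=
  (tensorRightAdjunction X (Xᘁ)).isLeftAdjoint

instance rightAdj_tensorRight (X : C) : (tensorRight X).IsRightAdjoint :=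
  (tensorRightAdjunction (ᘁX) X).isRightAdjoint

theorem projective_tensor (N P : C) [Projective P] : Projective (N ⊗ P) :=
  (tensorLeftAdjunction (ᘁN) N).map_projective P inferInstance

theorem isZero_of_isZero_dual (N : C) (h : IsZero (N ⊗ Nᘁ)) : IsZero N := by
  rw [IsZero.iff_id_eq_zero]
  have h1 : (η_ N (Nᘁ)) = 0 := h.eq_of_tgt _ _
  have h2 := ExactPairing.evaluation_coevaluation N (Nᘁ)
  rw [h1, MonoidalPreadditive.zero_whiskerRight, zero_comp] at h2
  rw [← cancel_epi (λ_ N).hom, ← cancel_mono (ρ_ N).inv, Category.comp_id]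
  rw [← h2]
  simp

/-- a projective object with nonzero tensor product with a given nonzero object -/
theorem exists_projective [EnoughProjectives C] (N : C) (h : ¬ IsZero N) :
    ∃ P : C, Projective P ∧ ¬ IsZero (N ⊗ P) := by
  refine ⟨Projective.over (Nᘁ), inferInstance, fun h0 => h (isZero_of_isZero_dual N ?_)⟩
  have : Epi ((tensorLeft N).map (Projective.π (Nᘁ))) := inferInstance
  rw [IsZero.iff_id_eq_zero]
  rw [← cancel_epi ((tensorLeft N).map (Projective.π (Nᘁ)))]
  exact h0.eq_of_src _ _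

theorem kernel_tensor {A : C} (a : 𝟙_ C ⟶ A) : a ▷ kernel a = 0 := by
  have h1 : Mono (A ◁ kernel.ι a) := inferInstanceAs (Mono ((tensorLeft A).map (kernel.ι a)))
  rw [← cancel_mono (A ◁ kernel.ι a), zero_comp, ← whisker_exchange]
  have h2 : 𝟙_ C ◁ kernel.ι a = (λ_ _).hom ≫ kernel.ι a ≫ (λ_ _).inv := by simp
  have h3 : a ▷ 𝟙_ C = (ρ_ _).hom ≫ a ≫ (ρ_ _).inv := by simp
  rw [h2, h3, ← unitors_equal]
  simp

theorem kernel_tensor' {A : C} (a : 𝟙_ C ⟶ A) (P : C) : a ▷ (kernel a ⊗ P) = 0 := by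
  rw [whiskerRight_tensor, kernel_tensor]
  simp

theorem mono_tensor {A B : C} (a : 𝟙_ C ⟶ A) (b : 𝟙_ C ⟶ B) (ha : Mono a) (hb : Mono b)
    (h : a ⊗ₘ b = 0) : IsZero (𝟙_ C) := by
  have h1 : Mono (a ▷ 𝟙_ C) := inferInstanceAs (Mono ((tensorRight (𝟙_ C)).map a))
  have h2 : Mono (A ◁ b) := inferInstanceAs (Mono ((tensorLeft A).map b))
  rw [MonoidalCategory.tensorHom_def] at h
  have h3 : Mono (a ▷ 𝟙_ C ≫ A ◁ b) := mono_comp _ _
  rw [h] at h3
  have h4 : IsZero (𝟙_ C ⊗ 𝟙_ C) := by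
    rw [IsZero.iff_id_eq_zero, ← cancel_mono (0 : 𝟙_ C ⊗ 𝟙_ C ⟶ A ⊗ B), comp_zero, comp_zero]
  exact h4.of_iso (λ_ _).symm

/-- the degree zero part of the tensor product of two objects placed in degree zero -/
noncomputable def isoZero (X Y : C) :
    (sg X).X 0 ⊗ (sg Y).X 0 ≅ (tens (sg X) (sg Y) (bdd_single X) (bdd_single Y)).X 0 where
  hom := ιt (bdd_single X) (bdd_single Y) 0 0 0 (by omega)
  inv := desct (bdd_single X) (bdd_single Y) (fun i j _ => if h : i = 0 ∧ j = 0 then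
    (((sg X).XIsoOfEq h.1).hom ⊗ₘ ((sg Y).XIsoOfEq h.2).hom) else 0)
  hom_inv_id := by
    rw [ι_desct]
    simp
  inv_hom_id := by
    refine tens_ext fun i j h => ?_
    by_cases h0 : i = 0
    · have h0' : j = 0 := by omega
      subst h0
      subst h0'
      rw [← Category.assoc, ι_desct]
      simp
    · exact (isZero_tensor_left (HomologicalComplex.isZero_single_obj_X _ _ _ _ h0) _).eq_of_src _ _

theorem isZero_tens_single (X Y : C) (i : ℤ) (hi : i ≠ 0) :
    IsZero ((tens (sg X) (sg Y) (bdd_single X) (bdd_single Y)).X i) := by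
  rw [IsZero.iff_id_eq_zero]
  refine tens_ext fun i₁ i₂ h => ?_
  by_cases h0 : i₁ = 0
  · have h1 : i₂ ≠ 0 := by omega
    exact (isZero_tensor_right _ (HomologicalComplex.isZero_single_obj_X _ _ _ _ h1)).eq_of_src _ _
  · exact (isZero_tensor_left (HomologicalComplex.isZero_single_obj_X _ _ _ _ h0) _).eq_of_src _ _

theorem key2 [HasDerivedCategory.{w} C] {K : CochainComplex C ℤ} (hK : Bdd K) (X Z : C)
    [Projective Z] (φ : sg X ⟶ K) (h : (φ.f 0 ≫ K.pOpcycles 0) ▷ ((sg Z).X 0) = 0) :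
    DerivedCategory.Q.map
      (tensMap (bdd_single X) (bdd_single Z) hK (bdd_single Z) φ (𝟙 (sg Z))) = 0 := by
  have hZ : Projective ((sg Z).X 0) :=
    Projective.of_iso (HomologicalComplex.singleObjXSelf (ComplexShape.up ℤ) 0 Z).symm inferInstance
  have hP : Projective ((tens (sg X) (sg Z) (bdd_single X) (bdd_single Z)).X 0) :=
    Projective.of_iso (isoZero X Z) (projective_tensor _ _)
  refine Q_eq_zero _ (isZero_tens_single X Z) ?_
  -- the exact sequence
  let T : ShortComplex C := ShortComplex.mk (K.d (-1) 0) (K.pOpcycles 0) (K.d_pOpcycles _ _)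
  have hT : T.Exact := ShortComplex.exact_of_g_is_cokernel _ (K.opcyclesIsCokernel (-1) 0 (by simp))
  have hE : Epi T.g := inferInstanceAs (Epi (K.pOpcycles 0))
  have hT' : (T.map (tensorRight ((sg Z).X 0))).Exact :=
    hT.map_of_epi_of_preservesCokernel _ hE inferInstance
  have hE' : Epi (T.map (tensorRight ((sg Z).X 0))).g :=
    inferInstanceAs (Epi ((tensorRight ((sg Z).X 0)).map T.g))
  obtain ⟨t, ht⟩ : ∃ t : K.opcycles 0 ⊗ (sg Z).X 0 ⟶ (tens K (sg Z) hK (bdd_single Z)).opcycles 0,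
      K.pOpcycles 0 ▷ (sg Z).X 0 ≫ t = ιt hK (bdd_single Z) 0 0 0 (by omega) ≫
        (tens K (sg Z) hK (bdd_single Z)).pOpcycles 0 :=
    hT'.desc' (ιt hK (bdd_single Z) 0 0 0 (by omega) ≫
    (tens K (sg Z) hK (bdd_single Z)).pOpcycles 0) (by
      have h1 := ι_d hK (bdd_single Z) (-1) 0 (-1) 0 0 1 (by omega) (by omega) (by omega) (by omega)
      rw [HomologicalComplex.single_obj_d, MonoidalPreadditive.whiskerLeft_zero, zero_comp,
        smul_zero] at h1
      have h2 := congrArg (fun u => u ≫ (tens K (sg Z) hK (bdd_single Z)).pOpcycles 0)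
        (h1.trans (add_zero _))
      simp only [Category.assoc, HomologicalComplex.d_pOpcycles, comp_zero,
        Linear.units_smul_comp] at h2
      change K.d (-1) 0 ▷ (sg Z).X 0 ≫ _ = 0
      exact (smul_eq_zero_iff_eq _).1 h2.symm)
  refine tens_ext fun i j h' => ?_
  by_cases h0 : i = 0
  · have h0' : j = 0 := by omega
    subst h0
    subst h0'
    rw [← Category.assoc, ι_map, Category.assoc, comp_zero, HomologicalComplex.id_f, tensorHom_id]
    refine (congrArg (fun u => φ.f 0 ▷ (sg Z).X 0 ≫ u) ht.symm).trans ?_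
    change φ.f 0 ▷ _ ≫ K.pOpcycles 0 ▷ _ ≫ t = 0
    rw [← Category.assoc, ← comp_whiskerRight, h, zero_comp]
  · exact (isZero_tensor_left (HomologicalComplex.isZero_single_obj_X _ _ _ _ h0) _).eq_of_src _ _

theorem not_isZero_obj [HasDerivedCategory.{w} C] {Z : C} (h : ¬ IsZero Z) :
    ¬ IsZero (obj Z : Db C) := by
  intro h0
  apply h
  have h1 : IsZero (DerivedCategory.Q.obj (sg Z)) := by
    rw [IsZero.iff_id_eq_zero]
    exact congrArg (fun t => t.hom) ((IsZero.iff_id_eq_zero _).1 h0)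
  have h2 : IsZero ((DerivedCategory.homologyFunctor C 0).obj (DerivedCategory.Q.obj (sg Z))) :=
    (DerivedCategory.homologyFunctor C 0).map_isZero h1
  have h3 : IsZero ((sg Z).homology 0) :=
    h2.of_iso ((DerivedCategory.homologyFunctorFactors C 0).app (sg Z)).symm
  exact h3.of_iso (HomologicalComplex.singleObjHomologySelfIso (ComplexShape.up ℤ) 0 Z).symm

/-- the first half of the main theorem -/
theorem half [HasDerivedCategory.{w} C] [EnoughProjectives C] (D : DTensor C) {X : Db C}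
    (f : one C ⟶ X) {K : CochainComplex C ℤ} (hK : Bdd K) (φ : sg (𝟙_ C) ⟶ K) (e : X ≅ QB K hK)
    (he : f ≫ e.hom = QBmap (bdd_single (𝟙_ C)) hK φ)
    (h : ¬ Mono ((HomologicalComplex.singleObjXSelf (ComplexShape.up ℤ) 0 (𝟙_ C)).inv ≫
      φ.f 0 ≫ K.pOpcycles 0)) :
    ∃ W : C, Projective W ∧ ¬ IsZero (obj W : Db C) ∧ D.hom f (𝟙 (obj W)) = 0 := by
  set a := (HomologicalComplex.singleObjXSelf (ComplexShape.up ℤ) 0 (𝟙_ C)).inv ≫
      φ.f 0 ≫ K.pOpcycles 0 with ha
  obtain ⟨W, hW, hW0, haW⟩ : ∃ W : C, Projective W ∧ ¬ IsZero W ∧ a ▷ W = 0 := by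
    have h1 : ¬ IsZero (kernel a) := fun h0 =>
      h (Preadditive.mono_of_kernel_zero (h0.eq_of_src _ _))
    obtain ⟨P, hP, hP'⟩ := exists_projective (kernel a) h1
    exact ⟨kernel a ⊗ P, projective_tensor _ _, hP', kernel_tensor' a P⟩
  refine ⟨W, hW, not_isZero_obj hW0, ?_⟩
  have h2 : (φ.f 0 ≫ K.pOpcycles 0) ▷ ((sg W).X 0) = 0 := by
    have h4 : (φ.f 0 ≫ K.pOpcycles 0) =
        (HomologicalComplex.singleObjXSelf (ComplexShape.up ℤ) 0 (𝟙_ C)).hom ≫ a := by
      rw [ha, Iso.hom_inv_id_assoc]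
    rw [h4, comp_whiskerRight]
    have h5 : a ▷ (sg W).X 0 = 0 := by
      rw [← cancel_mono (K.opcycles 0 ◁
        (HomologicalComplex.singleObjXSelf (ComplexShape.up ℤ) 0 W).hom),
        ← whisker_exchange, haW, comp_zero, zero_comp]
    rw [h5, comp_zero]
  have h3 := key2 hK (𝟙_ C) W φ h2
  have h4 : f = QBmap (bdd_single (𝟙_ C)) hK φ ≫ e.inv := (Iso.eq_comp_inv e).2 he
  have h5 : (𝟙 (obj W) : (obj W : Db C) ⟶ _) =
      QBmap (bdd_single _) (bdd_single _) (𝟙 (sg W)) := by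
    ext
    simp [QBmap, obj, QB]
  have h6 : D.hom (QBmap (bdd_single (𝟙_ C)) hK φ) (𝟙 (obj W)) = 0 := by
    rw [h5]
    refine (hom_Q D _ _ _ _ _ _).trans ?_
    have h7 : QBmap (bdd_tens (bdd_single (𝟙_ C)) (bdd_single W))
        (bdd_tens hK (bdd_single W))
        (tensMap (bdd_single _) (bdd_single _) hK (bdd_single _) φ (𝟙 (sg W))) = 0 := by
      ext
      exact h3
    rw [h7, zero_comp, comp_zero]
    rfl
  rw [h4]
  have h8 := hom_comp D (QBmap (bdd_single (𝟙_ C)) hK φ) e.inv (𝟙 (obj W)) (𝟙 (obj W))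
  rw [Category.comp_id] at h8
  refine h8.trans ?_
  rw [h6, zero_comp]
  rfl

theorem main [HasDerivedCategory.{w} C] [EnoughProjectives C] (D : DTensor C)
    (h1 : ¬ IsZero (𝟙_ C)) {X Y : Db C} (f : one C ⟶ X) (g : one C ⟶ Y) (h : D.hom f g = 0) :
    ∃ W : C, Projective W ∧ ¬ IsZero (obj W : Db C) ∧
      (D.hom f (𝟙 (obj W)) = 0 ∨ D.hom g (𝟙 (obj W)) = 0) := by
  obtain ⟨K, hK, φ, e, he⟩ := rep (bdd_single (𝟙_ C)) f
  obtain ⟨L, hL, ψ, e', he'⟩ := rep (bdd_single (𝟙_ C)) g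
  by_cases ha : Mono ((HomologicalComplex.singleObjXSelf (ComplexShape.up ℤ) 0 (𝟙_ C)).inv ≫
      φ.f 0 ≫ K.pOpcycles 0)
  swap
  · obtain ⟨W, hW, hZ, hZ'⟩ := half D f hK φ e he ha
    exact ⟨W, hW, hZ, Or.inl hZ'⟩
  by_cases hb : Mono ((HomologicalComplex.singleObjXSelf (ComplexShape.up ℤ) 0 (𝟙_ C)).inv ≫
      ψ.f 0 ≫ L.pOpcycles 0)
  swap
  · obtain ⟨W, hW, hZ, hZ'⟩ := half D g hL ψ e' he' hb
    exact ⟨W, hW, hZ, Or.inr hZ'⟩
  exfalso
  apply h1
  refine mono_tensor _ _ ha hb ?_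
  have h2 : D.hom (f ≫ e.hom) (g ≫ e'.hom) = 0 := by
    rw [hom_comp, h, zero_comp]
  have h2' : D.hom (QBmap (bdd_single (𝟙_ C)) hK φ) (QBmap (bdd_single (𝟙_ C)) hL ψ) = 0 := by
    rw [← he, ← he']
    exact h2
  have h3 := (hom_Q D _ _ _ _ φ ψ).symm.trans h2'
  have h4 : QBmap (bdd_tens (bdd_single (𝟙_ C)) (bdd_single (𝟙_ C))) (bdd_tens hK hL)
      (tensMap (bdd_single (𝟙_ C)) (bdd_single (𝟙_ C)) hK hL φ ψ) = 0 := by
    have h5 := congrArg (fun t => (D.iso _ _ (bdd_single (𝟙_ C)) (bdd_single (𝟙_ C))).inv ≫ t ≫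
      (D.iso _ _ hK hL).hom) h3
    simpa using h5
  have h5 : DerivedCategory.Q.map
      (tensMap (bdd_single (𝟙_ C)) (bdd_single (𝟙_ C)) hK hL φ ψ) = 0 :=
    congrArg (fun t => t.hom) h4
  rw [← tensorHom_comp_tensorHom, key1 hK hL _ _ φ ψ h5, comp_zero]

end rigid

end Pool.Agent.U692.TV
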